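import Pool.Agent.Helper57_K9.Stmts
import Pool.Agent.Helper94_PP.LemQ
import Pool.Agent.Helper50_PP.Chi
import Pool.Agent.Helper51_AWC.Abelian

/-!
# K9, row ADA: Adams operations map virtual characters to virtual characters
-/

open scoped BigOperators

noncomputable section

namespace Pool.Agent.PP.K9.H25

open Pool.Agent.Helper51_AWC Pool.Agent.Helper79_WRA Pool.Agent.PP Pool.Agent.PP.KF

set_option linter.unusedSectionVars false

variable {G : Type} [Group G]

theorem ipn_eq [Fintype G] (f h : G → ℂ) :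
    ipn f h = (Fintype.card G : ℂ)⁻¹ * ∑ x, f x * starRingEnd ℂ (h x) := by
  unfold ipn
  rw [Nat.card_eq_fintype_card, finsum_eq_sum_of_fintype]

theorem ipn_add_left [Finite G] (f f' h : G → ℂ) : ipn (f + f') h = ipn f h + ipn f' h := by
  have := Fintype.ofFinite G
  rw [ipn_eq, ipn_eq, ipn_eq, ← mul_add, ← Finset.sum_add_distrib]
  congr 1
  exact Finset.sum_congr rfl fun x _ => by rw [Pi.add_apply, add_mul]

theorem ipn_add_right [Finite G] (f h h' : G → ℂ) : ipn f (h + h') = ipn f h + ipn f h' := by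
  have := Fintype.ofFinite G
  rw [ipn_eq, ipn_eq, ipn_eq, ← mul_add, ← Finset.sum_add_distrib]
  congr 1
  exact Finset.sum_congr rfl fun x _ => by rw [Pi.add_apply, map_add, mul_add]

theorem ipn_neg_left [Finite G] (f h : G → ℂ) : ipn (-f) h = - ipn f h := by
  have := Fintype.ofFinite G
  rw [ipn_eq, ipn_eq, ← mul_neg, ← Finset.sum_neg_distrib]
  congr 1
  exact Finset.sum_congr rfl fun x _ => by rw [Pi.neg_apply, neg_mul]

theorem ipn_neg_right [Finite G] (f h : G → ℂ) : ipn f (-h) = - ipn f h := by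
  have := Fintype.ofFinite G
  rw [ipn_eq, ipn_eq, ← mul_neg, ← Finset.sum_neg_distrib]
  congr 1
  exact Finset.sum_congr rfl fun x _ => by rw [Pi.neg_apply, map_neg, mul_neg]

theorem ipn_zero_left (h : G → ℂ) : ipn 0 h = 0 := by
  unfold ipn
  simp

theorem ipn_zero_right (f : G → ℂ) : ipn f 0 = 0 := by
  unfold ipn
  simp

theorem ipn_irr [Finite G] {χ ψ : G → ℂ} (hχ : χ ∈ Irr G) (hψ : ψ ∈ Irr G) :
    ∃ m : ℤ, ipn χ ψ = m := by
  have := Fintype.ofFinite G
  have hc : (Fintype.card G : ℂ) ≠ 0 := by exact_mod_cast Fintype.card_ne_zero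
  have h1 : ∑ x, χ x * starRingEnd ℂ (ψ x) = ∑ x, χ x * ψ x⁻¹ :=
    Finset.sum_congr rfl fun x _ => by rw [H94.irr_star hψ]
  rw [ipn_eq, h1]
  rcases irr_orth hχ hψ with h | h
  · exact ⟨0, by rw [h]; simp⟩
  · exact ⟨1, by rw [h.2, inv_mul_cancel₀ hc]; simp⟩

theorem zi_cl {f : G → ℂ} (hf : f ∈ ZI G) : ∀ x y, f (y * x * y⁻¹) = f x := by
  unfold ZI at hf
  induction hf using AddSubgroup.closure_induction with
  | mem χ hχ => exact fun x y => irr_conj hχ x y
  | zero => exact fun x y => rfl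
  | add f g _ _ hf hg => exact fun x y => by rw [Pi.add_apply, Pi.add_apply, hf, hg]
  | neg f _ hf => exact fun x y => by rw [Pi.neg_apply, Pi.neg_apply, hf]

theorem zi_one {f : G → ℂ} (hf : f ∈ ZI G) : ∃ m : ℤ, f 1 = m := by
  unfold ZI at hf
  induction hf using AddSubgroup.closure_induction with
  | mem χ hχ =>
    obtain ⟨d, -, hd⟩ := irr_one hχ
    exact ⟨d, by rw [hd]; simp⟩
  | zero => exact ⟨0, by simp⟩
  | add f g _ _ hf hg =>
    obtain ⟨m, hm⟩ := hf
    obtain ⟨n, hn⟩ := hg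
    exact ⟨m + n, by rw [Pi.add_apply, hm, hn]; push_cast; rfl⟩
  | neg f _ hf =>
    obtain ⟨m, hm⟩ := hf
    exact ⟨-m, by rw [Pi.neg_apply, hm]; push_cast; rfl⟩

theorem irr_zi_ipn [Finite G] {χ h : G → ℂ} (hχ : χ ∈ Irr G) (hh : h ∈ ZI G) :
    ∃ m : ℤ, ipn χ h = m := by
  unfold ZI at hh
  induction hh using AddSubgroup.closure_induction with
  | mem ψ hψ => exact ipn_irr hχ hψ
  | zero => exact ⟨0, by rw [ipn_zero_right]; simp⟩
  | add f g _ _ hf hg =>
    obtain ⟨m, hm⟩ := hf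
    obtain ⟨n, hn⟩ := hg
    exact ⟨m + n, by rw [ipn_add_right, hm, hn]; push_cast; rfl⟩
  | neg f _ hf =>
    obtain ⟨m, hm⟩ := hf
    exact ⟨-m, by rw [ipn_neg_right, hm]; push_cast; rfl⟩

/-- the inner product of two virtual characters is an integer -/
theorem zi_ipn [Finite G] {f h : G → ℂ} (hf : f ∈ ZI G) (hh : h ∈ ZI G) :
    ∃ m : ℤ, ipn f h = m := by
  unfold ZI at hf
  induction hf using AddSubgroup.closure_induction with
  | mem ψ hψ => exact irr_zi_ipn hψ hh
  | zero => exact ⟨0, by rw [ipn_zero_left]; simp⟩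
  | add f g _ _ hf hg =>
    obtain ⟨m, hm⟩ := hf
    obtain ⟨n, hn⟩ := hg
    exact ⟨m + n, by rw [ipn_add_left, hm, hn]; push_cast; rfl⟩
  | neg f _ hf =>
    obtain ⟨m, hm⟩ := hf
    exact ⟨-m, by rw [ipn_neg_left, hm]; push_cast; rfl⟩

/-- a class function with integral inner products is a virtual character -/
theorem mem_zi_of [Finite G] {f : G → ℂ} (hf : ∀ x y, f (y * x * y⁻¹) = f x)
    (h : ∀ η ∈ Irr G, ∃ m : ℤ, ipn f η = m) : f ∈ ZI G := by
  classical
  have := Fintype.ofFinite G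
  have := Fintype.ofFinite (Irr G)
  have hc : (Fintype.card G : ℂ) ≠ 0 := by exact_mod_cast Fintype.card_ne_zero
  choose m hm using fun χ : Irr G => h χ χ.2
  have hm' : ∀ χ : Irr G, ∑ x, f x * (χ : G → ℂ) x⁻¹ = (m χ : ℂ) * Fintype.card G := by
    intro χ
    have h1 : ∑ x, f x * (χ : G → ℂ) x⁻¹ = ∑ x, f x * starRingEnd ℂ ((χ : G → ℂ) x) :=
      Finset.sum_congr rfl fun x _ => by rw [H94.irr_star χ.2]
    rw [h1, ← hm χ, ipn_eq]
    field_simp
  have h2 : f = ∑ χ : Irr G, (m χ : ℂ) • (χ : G → ℂ) := by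
    rw [← sub_eq_zero]
    apply irr_complete'
    · intro g h
      simp only [Pi.sub_apply, Finset.sum_apply, Pi.smul_apply, hf]
      congr 1
      refine Finset.sum_congr rfl fun χ _ => ?_
      rw [irr_conj χ.2]
    · intro ψ hψ
      simp only [Pi.sub_apply, Finset.sum_apply, Pi.smul_apply, smul_eq_mul, sub_mul,
        Finset.sum_sub_distrib, Finset.sum_mul]
      rw [hm' ⟨ψ, hψ⟩, Finset.sum_comm, Finset.sum_eq_single_of_mem ⟨ψ, hψ⟩ (Finset.mem_univ _)]
      · simp_rw [mul_assoc]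
        rw [← Finset.mul_sum, irr_orth_self hψ, sub_self]
      · intro χ _ hne
        simp_rw [mul_assoc]
        rw [← Finset.mul_sum, irr_orth_ne χ.2 hψ (fun h => hne (Subtype.ext h)), mul_zero]
  rw [h2]
  refine AddSubgroup.sum_mem _ fun χ _ => ?_
  rw [Int.cast_smul_eq_zsmul]
  exact AddSubgroup.zsmul_mem _ (AddSubgroup.subset_closure χ.2) _

theorem psi_prime (adp : AdpStmt) [Finite G] {r : ℕ} (hr : r.Prime) {f : G → ℂ} (hf : f ∈ ZI G) :
    (fun g => f (g ^ r)) ∈ ZI G := by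
  unfold ZI at hf
  induction hf using AddSubgroup.closure_induction with
  | mem χ hχ =>
    refine mem_zi_of (fun x y => ?_) fun η hη => adp G r hr χ hχ η hη
    have h1 : (y * x * y⁻¹) ^ r = y * x ^ r * y⁻¹ := conj_pow
    rw [h1, irr_conj hχ]
  | zero => exact AddSubgroup.zero_mem _
  | add f g _ _ hf hg => exact AddSubgroup.add_mem _ hf hg
  | neg f _ hf => exact AddSubgroup.neg_mem _ hf

theorem psi_all (adp : AdpStmt) [Finite G] (N : ℕ) :
    ∀ f : G → ℂ, f ∈ ZI G → (fun g => f (g ^ N)) ∈ ZI G := by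
  classical
  have := Fintype.ofFinite G
  induction N using induction_on_primes with
  | zero =>
    intro f hf
    obtain ⟨m, hm⟩ := zi_one hf
    have hone : (fun _ : G => (1 : ℂ)) ∈ Irr G := by
      have := linear_mem_Irr (1 : G →* ℂˣ)
      simpa using this
    have h1 : (fun g : G => f (g ^ 0)) = m • (fun _ : G => (1 : ℂ)) := by
      funext g
      rw [Pi.smul_apply, pow_zero, hm]
      simp
    rw [h1]
    exact AddSubgroup.zsmul_mem _ (AddSubgroup.subset_closure hone) _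
  | one =>
    intro f hf
    simpa using hf
  | prime_mul p a hp ih =>
    intro f hf
    have h1 := psi_prime adp hp (ih f hf)
    simp only [← pow_mul] at h1
    exact h1

theorem ada (adp : AdpStmt) : AdaStmt := by
  intro G _ _ N f hf h hh
  exact zi_ipn (psi_all adp N f hf) hh

end Pool.Agent.PP.K9.H25
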