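import Pool.Agent.Helper25_K9.ROT
import Pool.Agent.Helper75_PP.Quo

/-!
# K9, row PRG: the number `A_χ` for the projective character
-/

open scoped BigOperators

noncomputable section

namespace Pool.Agent.PP.K9.H25

open Pool.Agent.Helper51_AWC Pool.Agent.Helper79_WRA Pool.Agent.PP Pool.Agent.PP.KF

attribute [local instance] Ideal.Quotient.field

set_option linter.unusedSectionVars false

section eh

variable {G : Type} [Group G] [Fintype G] (M : Ideal (integralClosure ℤ ℂ)) [M.IsMaximal]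

theorem eh_eq (e : G → FF M) (g : G) :
    eh M e g = (Fintype.card G : ℂ)⁻¹ * ∑ χ ∈ (irrE_finite M e).toFinset, χ 1 * χ g⁻¹ := by
  unfold eh
  rw [Nat.card_eq_fintype_card, finsum_mem_eq_finite_toFinset_sum _ (irrE_finite M e)]

theorem pr_eq (e : G → FF M) (g : G) :
    pr M e g = ∑ χ ∈ (irrE_finite M e).toFinset, χ 1 * χ g := by
  unfold pr
  rw [finsum_mem_eq_finite_toFinset_sum _ (irrE_finite M e)]

theorem star_one {χ : G → ℂ} (hχ : χ ∈ Irr G) : starRingEnd ℂ (χ 1) = χ 1 := by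
  rw [H94.irr_star hχ, inv_one]

/-- the projective character and the lift of the idempotent -/
theorem star_pr (e : G → FF M) (g : G) :
    starRingEnd ℂ (pr M e g) = Fintype.card G * eh M e g := by
  have hc : (Fintype.card G : ℂ) ≠ 0 := by exact_mod_cast Fintype.card_ne_zero
  rw [pr_eq, eh_eq, ← mul_assoc, mul_inv_cancel₀ hc, one_mul, map_sum]
  refine Finset.sum_congr rfl fun χ hχ => ?_
  rw [Set.Finite.mem_toFinset] at hχ
  rw [map_mul, H94.irr_star hχ.1, H94.irr_star hχ.1, inv_one]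

theorem eh_cl (e : G → FF M) (x y : G) : eh M e (y * x * y⁻¹) = eh M e x := by
  rw [eh_eq, eh_eq]
  congr 1
  refine Finset.sum_congr rfl fun χ hχ => ?_
  rw [Set.Finite.mem_toFinset] at hχ
  have : (y * x * y⁻¹)⁻¹ = y * x⁻¹ * y⁻¹ := by group
  rw [this, irr_conj hχ.1]

open Classical in
theorem eh_chv (e : G → FF M) {χ : G → ℂ} (hχ : χ ∈ Irr G) :
    ∑ g, eh M e g * χ g = if χ ∈ IrrE M e then χ 1 else 0 := by
  have hc : (Fintype.card G : ℂ) ≠ 0 := by exact_mod_cast Fintype.card_ne_zero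
  have h1 : ∑ g, eh M e g * χ g = ∑ ψ ∈ (irrE_finite M e).toFinset,
      (Fintype.card G : ℂ)⁻¹ * (ψ 1 * ∑ g, χ g * ψ g⁻¹) := by
    simp only [eh_eq, Finset.mul_sum, Finset.sum_mul]
    rw [Finset.sum_comm]
    refine Finset.sum_congr rfl fun ψ _ => Finset.sum_congr rfl fun g _ => ?_
    ring
  rw [h1]
  by_cases h : χ ∈ IrrE M e
  · rw [if_pos h, Finset.sum_eq_single_of_mem χ ((Set.Finite.mem_toFinset _).2 h)]
    · rw [irr_orth_self hχ]
      field_simp
    · intro ψ hψ hne
      rw [Set.Finite.mem_toFinset] at hψ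
      rw [irr_orth_ne hχ hψ.1 (Ne.symm hne), mul_zero, mul_zero]
  · rw [if_neg h]
    refine Finset.sum_eq_zero fun ψ hψ => ?_
    rw [Set.Finite.mem_toFinset] at hψ
    rw [irr_orth_ne hχ hψ.1 (fun h' => h (h' ▸ hψ)), mul_zero, mul_zero]

end eh

theorem reg_one {ℓ : ℕ} {G : Type} [Group G] : Reg ℓ (1 : G) := by
  unfold Reg
  rw [orderOf_one]
  exact Nat.coprime_one_left ℓ

/-- (i) -/
theorem rc_pr (wbo : WboStmt) (ℓ : ℕ) [Fact ℓ.Prime] (M : Ideal (integralClosure ℤ ℂ))
    [M.IsMaximal] (hM : (ℓ : integralClosure ℤ ℂ) ∈ M) (G : Type) [Group G] [Finite G]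
    (e : G → FF M) (he : IsIdem e) : Rc ℓ (pr M e) := by
  have := Fintype.ofFinite G
  refine ⟨fun x y => ?_, fun x hx => ?_⟩
  · rw [pr_eq, pr_eq]
    refine Finset.sum_congr rfl fun χ hχ => ?_
    rw [Set.Finite.mem_toFinset] at hχ
    rw [irr_conj hχ.1]
  · have h1 := wbo ℓ M hM G e he 1 x reg_one hx
    rw [inv_one] at h1
    exact h1

open Classical in
/-- the lift of the image of an idempotent -/
theorem eh_push (psi : PsiStmt) (M : Ideal (integralClosure ℤ ℂ)) [M.IsMaximal] {A B : Type}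
    [Group A] [Fintype A] [Group B] [Fintype B] (p : A →* B) (hp : Function.Surjective p)
    (b : A → FF M) (hb : IsCl b) (y : B) :
    eh M (H75.push p b) y = ∑ a : A, if p a = y then eh M b a else 0 := by
  obtain ⟨h1, h2⟩ := psi M A B p hp b hb
  have h3 : (fun y => eh M (H75.push p b) y - ∑ a : A, if p a = y then eh M b a else 0) = 0 := by
    apply irr_complete
    · intro g h
      rw [eh_cl]
      congr 1
      obtain ⟨k, rfl⟩ := hp h
      rw [← Equiv.sum_comp (MulAut.conj k).toEquiv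
        (fun a => if p a = p k * g * (p k)⁻¹ then eh M b a else 0)]
      refine Finset.sum_congr rfl fun a _ => ?_
      have h4 : (MulAut.conj k).toEquiv a = k * a * k⁻¹ := rfl
      rw [h4, eh_cl, map_mul, map_mul, map_inv]
      have h5 : p k * p a * (p k)⁻¹ = p k * g * (p k)⁻¹ ↔ p a = g := by
        rw [mul_left_inj, mul_right_inj]
      simp only [h5]
    · intro θ hθ
      simp only [sub_mul, Finset.sum_sub_distrib]
      rw [eh_chv M _ hθ]
      have h4 : ∑ y, (∑ a : A, if p a = y then eh M b a else 0) * θ y =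
          ∑ a, eh M b a * θ (p a) := by
        simp only [Finset.sum_mul]
        rw [Finset.sum_comm]
        refine Finset.sum_congr rfl fun a _ => ?_
        rw [Finset.sum_eq_single (p a)]
        · rw [if_pos rfl]
        · intro z _ hz
          rw [if_neg (Ne.symm hz), zero_mul]
        · intro h
          exact absurd (Finset.mem_univ _) h
      rw [h4, eh_chv M b (h2 θ hθ)]
      have h5 : θ ∈ IrrE M (H75.push p b) ↔ (fun a => θ (p a)) ∈ IrrE M b := by
        rw [h1]
        exact ⟨fun h => h.2, fun h => ⟨hθ, h⟩⟩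
      simp only [h5, map_one, sub_self]
  exact sub_eq_zero.1 (congrFun h3 y)

theorem eh_sing (wbo : WboStmt) (ℓ : ℕ) [Fact ℓ.Prime] (M : Ideal (integralClosure ℤ ℂ))
    [M.IsMaximal] (hM : (ℓ : integralClosure ℤ ℂ) ∈ M) {G : Type} [Group G] [Fintype G]
    (e : G → FF M) (he : IsIdem e) (x : G) (hx : ¬ Reg ℓ x) : eh M e x = 0 := by
  unfold eh
  have h1 := wbo ℓ M hM G e he 1 x⁻¹ reg_one (fun h => hx (reg_inv.1 h))
  rw [inv_one] at h1
  rw [h1, mul_zero]

/-- a regular element times a non-trivial element of the central subgroup of order `ℓ` -/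
theorem reg_ker {ℓ : ℕ} [Fact ℓ.Prime] {G H : Type} [Group G] [Finite G] [Group H] {u : G}
    {π : Cu u →* H} (hq : Qt ℓ u π) {s c : Cu u} (hs : Reg ℓ s) (hc : Reg ℓ c)
    (h : π c = π s) : c = s := by
  have h1 : π (s⁻¹ * c) = 1 := by rw [map_mul, map_inv, h, inv_mul_cancel]
  have h2 : ((s⁻¹ * c : Cu u) : G) ∈ Subgroup.zpowers u := (hq.ker _).1 h1
  obtain ⟨j, hj⟩ := h2
  have hcomm : Commute s⁻¹ c := by
    have h3 : Commute s (s⁻¹ * c) := by
      apply Subtype.ext
      have h4 : (s : G) * u = u * s := (Subgroup.mem_centralizer_singleton_iff.1 s.2)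
      have h5 : Commute (s : G) (u ^ j) := (show Commute (s : G) u from h4).zpow_right j
      have h6 : ((s⁻¹ * c : Cu u) : G) = u ^ j := hj.symm
      change (s : G) * ((s⁻¹ * c : Cu u) : G) = ((s⁻¹ * c : Cu u) : G) * (s : G)
      rw [h6]
      exact h5
    have h4 : Commute s c := by
      have h5 : c = s * (s⁻¹ * c) := by group
      rw [h5]
      exact (Commute.refl s).mul_right h3
    exact h4.inv_left
  have h3 : (orderOf (s⁻¹ * c)).Coprime ℓ := by
    have h4 := hcomm.orderOf_mul_dvd_mul_orderOf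
    have h5 : (orderOf s⁻¹ * orderOf c).Coprime ℓ :=
      Nat.Coprime.mul_left (by rw [orderOf_inv]; exact hs) hc
    exact Nat.Coprime.coprime_dvd_left h4 h5
  have h4 : (s⁻¹ * c) ^ ℓ = 1 := by
    apply Subtype.ext
    change ((s⁻¹ * c : Cu u) : G) ^ ℓ = 1
    rw [← hj]
    change (u ^ j) ^ ℓ = 1
    rw [← zpow_natCast, ← zpow_mul, mul_comm, zpow_mul, zpow_natCast, ← hq.ord, pow_orderOf_eq_one,
      one_zpow]
  have h5 : orderOf (s⁻¹ * c) ∣ ℓ := orderOf_dvd_of_pow_eq_one h4
  have h6 : orderOf (s⁻¹ * c) = 1 := Nat.eq_one_of_dvd_coprimes h3 dvd_rfl h5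
  rw [orderOf_eq_one_iff] at h6
  exact (inv_mul_eq_one.1 h6).symm

theorem prg (wbo : WboStmt) (psi : PsiStmt) : PrgStmt := by
  classical
  intro ℓ _ M _ hM
  refine ⟨fun G _ _ e he => rc_pr wbo ℓ M hM G e he, ?_⟩
  intro G H _ _ _ _ u π hq b hb w _ χ _
  have := Fintype.ofFinite G
  have := Fintype.ofFinite H
  have := Fintype.ofFinite (Cu u)
  have hc : (Fintype.card H : ℂ) ≠ 0 := by exact_mod_cast Fintype.card_ne_zero
  have h1 : ∀ s : Cu u, Reg ℓ s → eh M (H75.push π b) (π s) = eh M b s := by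
    intro s hs
    rw [eh_push psi M π hq.sur b hb.1, Finset.sum_eq_single s]
    · rw [if_pos rfl]
    · intro c _ hcs
      by_cases hpc : π c = π s
      · rw [if_pos hpc]
        refine eh_sing wbo ℓ M hM b hb c fun hcr => hcs ?_
        exact reg_ker hq hs hcr hpc
      · rw [if_neg hpc]
    · intro h
      exact absurd (Finset.mem_univ _) h
  unfold Av gbv
  rw [finsum_eq_sum_of_fintype, finsum_eq_sum_of_fintype, Nat.card_eq_fintype_card, Finset.mul_sum]
  refine Finset.sum_congr rfl fun s _ => ?_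
  by_cases hs : Reg ℓ s
  · rw [finsum_eq_if, if_pos hs, star_pr, h1 s hs]
    field_simp
  · rw [finsum_eq_if, if_neg hs, mul_zero, eh_sing wbo ℓ M hM b hb s hs, zero_mul]

end Pool.Agent.PP.K9.H25
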