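import Pool.Agent.Helper57_K9.Stmts
import Pool.Agent.Helper94_PP.LemQ

/-!
# K9, row ROT: the restriction to the regular elements respects the blocks
-/

open scoped BigOperators

noncomputable section

namespace Pool.Agent.PP.K9.H25

open Pool.Agent.Helper51_AWC Pool.Agent.Helper79_WRA Pool.Agent.PP Pool.Agent.PP.KF

attribute [local instance] Ideal.Quotient.field

set_option linter.unusedSectionVars false

section rot

variable {G : Type} [Group G] [Fintype G]

theorem irrE_finite (M : Ideal (integralClosure ℤ ℂ)) [M.IsMaximal] (e : G → FF M) :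
    (IrrE M e).Finite := irr_finite'.subset fun _ h => h.1

/-- projection to the span of a finite set of characters -/
def pj (S : Finset (G → ℂ)) (f : G → ℂ) : G → ℂ :=
  ∑ ψ ∈ S, ((Fintype.card G : ℂ)⁻¹ * ∑ x, f x * ψ x⁻¹) • ψ

theorem pj_apply (S : Finset (G → ℂ)) (f : G → ℂ) (g : G) :
    pj S f g = (Fintype.card G : ℂ)⁻¹ * ∑ x, f x * ∑ ψ ∈ S, ψ x⁻¹ * ψ g := by
  unfold pj
  rw [Finset.sum_apply]
  simp only [Pi.smul_apply, smul_eq_mul, Finset.mul_sum, Finset.sum_mul]
  rw [Finset.sum_comm]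
  refine Finset.sum_congr rfl fun x _ => Finset.sum_congr rfl fun ψ _ => ?_
  ring

theorem pj_add (S : Finset (G → ℂ)) (f h : G → ℂ) : pj S (f + h) = pj S f + pj S h := by
  funext g
  rw [Pi.add_apply, pj_apply, pj_apply, pj_apply, ← mul_add, ← Finset.sum_add_distrib]
  congr 1
  exact Finset.sum_congr rfl fun x _ => by rw [Pi.add_apply, add_mul]

theorem pj_smul (S : Finset (G → ℂ)) (c : ℂ) (f : G → ℂ) : pj S (c • f) = c • pj S f := by
  funext g
  rw [Pi.smul_apply, pj_apply, pj_apply, smul_eq_mul, mul_left_comm, Finset.mul_sum (a := c)]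
  congr 1
  exact Finset.sum_congr rfl fun x _ => by rw [Pi.smul_apply, smul_eq_mul, mul_assoc]

theorem pj_zero (S : Finset (G → ℂ)) : pj S (0 : G → ℂ) = 0 := by
  funext g
  rw [pj_apply]
  simp

theorem pj_mem (S : Finset (G → ℂ)) (f : G → ℂ) : pj S f ∈ Submodule.span ℂ (S : Set (G → ℂ)) :=
  Submodule.sum_mem _ fun _ hψ => Submodule.smul_mem _ _ (Submodule.subset_span hψ)

theorem pj_self {S : Finset (G → ℂ)} (hS : ∀ ψ ∈ S, ψ ∈ Irr G) {χ : G → ℂ} (hχ : χ ∈ S) :
    pj S χ = χ := by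
  have hc : (Fintype.card G : ℂ) ≠ 0 := by exact_mod_cast Fintype.card_ne_zero
  unfold pj
  rw [Finset.sum_eq_single_of_mem χ hχ]
  · rw [irr_orth_self (hS χ hχ), inv_mul_cancel₀ hc, one_smul]
  · intro ψ hψ hne
    rw [irr_orth_ne (hS χ hχ) (hS ψ hψ) (Ne.symm hne), mul_zero, zero_smul]

theorem pj_span {S : Finset (G → ℂ)} (hS : ∀ ψ ∈ S, ψ ∈ Irr G) {f : G → ℂ}
    (hf : f ∈ Submodule.span ℂ (S : Set (G → ℂ))) : pj S f = f := by
  induction hf using Submodule.span_induction with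
  | mem χ hχ => exact pj_self hS hχ
  | zero => exact pj_zero S
  | add f g _ _ hf hg => rw [pj_add, hf, hg]
  | smul c f _ hf => rw [pj_smul, hf]

theorem span_orth {S : Finset (G → ℂ)} (hS : ∀ ψ ∈ S, ψ ∈ Irr G) {ψ : G → ℂ} (hψ : ψ ∈ Irr G)
    (hψS : ψ ∉ S) {f : G → ℂ} (hf : f ∈ Submodule.span ℂ (S : Set (G → ℂ))) :
    ∑ x, f x * ψ x⁻¹ = 0 := by
  induction hf using Submodule.span_induction with
  | mem χ hχ => exact irr_orth_ne (hS χ hχ) hψ (fun h => hψS (h ▸ hχ))
  | zero => simp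
  | add f g _ _ hf hg =>
    simp only [Pi.add_apply, add_mul, Finset.sum_add_distrib, hf, hg, add_zero]
  | smul c f _ hf =>
    simp only [Pi.smul_apply, smul_eq_mul, mul_assoc]
    rw [← Finset.mul_sum, hf, mul_zero]

end rot

theorem reg_inv {ℓ : ℕ} {G : Type} [Group G] {g : G} : Reg ℓ g⁻¹ ↔ Reg ℓ g := by
  unfold Reg
  rw [orderOf_inv]

open Classical in
theorem rot (wbo : WboStmt) : RotStmt := by
  intro ℓ _ M _ hM G _ _ e he
  have := Fintype.ofFinite G
  obtain ⟨S, hSdef⟩ : ∃ S, S = (irrE_finite M e).toFinset := ⟨_, rfl⟩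
  have hSc : (S : Set (G → ℂ)) = IrrE M e := by rw [hSdef, Set.Finite.coe_toFinset]
  have hS : ∀ ψ ∈ S, ψ ∈ Irr G := fun ψ hψ => by
    rw [hSdef, Set.Finite.mem_toFinset] at hψ
    exact hψ.1
  have hw : ∀ s g : G, Reg ℓ s → ¬ Reg ℓ g → ∑ ψ ∈ S, ψ s⁻¹ * ψ g = 0 := by
    intro s g hs hg
    have h1 := wbo ℓ M hM G e he s g hs hg
    rw [finsum_mem_eq_finite_toFinset_sum _ (irrE_finite M e)] at h1
    rw [hSdef]
    exact h1
  have hi : ∀ f ∈ Submodule.span ℂ (IrrE M e),
      (fun g => if Reg ℓ g then f g else 0) ∈ Submodule.span ℂ (IrrE M e) := by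
    intro f hf
    rw [← hSc] at hf ⊢
    have h1 := pj_span hS hf
    have h2 : f = (fun g => if Reg ℓ g then f g else 0) + (fun g => if Reg ℓ g then 0 else f g) := by
      funext g
      rw [Pi.add_apply]
      by_cases hg : Reg ℓ g <;> simp [hg]
    have h3 : ∀ g, ¬ Reg ℓ g → pj S (fun g => if Reg ℓ g then f g else 0) g = 0 := by
      intro g hg
      rw [pj_apply]
      have : ∀ x, (if Reg ℓ x then f x else 0) * ∑ ψ ∈ S, ψ x⁻¹ * ψ g = 0 := by
        intro x
        by_cases hx : Reg ℓ x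
        · rw [hw x g hx hg, mul_zero]
        · rw [if_neg hx, zero_mul]
      simp only [this, Finset.sum_const_zero, mul_zero]
    have h4 : ∀ g, Reg ℓ g → pj S (fun g => if Reg ℓ g then 0 else f g) g = 0 := by
      intro g hg
      rw [pj_apply]
      have : ∀ x, (if Reg ℓ x then 0 else f x) * ∑ ψ ∈ S, ψ x⁻¹ * ψ g = 0 := by
        intro x
        by_cases hx : Reg ℓ x
        · rw [if_pos hx, zero_mul]
        · have h5 := hw g⁻¹ x⁻¹ (reg_inv.2 hg) (fun h => hx (reg_inv.1 h))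
          rw [inv_inv] at h5
          have h6 : ∑ ψ ∈ S, ψ x⁻¹ * ψ g = 0 := by
            rw [← h5]
            exact Finset.sum_congr rfl fun ψ _ => mul_comm _ _
          rw [h6, mul_zero]
      simp only [this, Finset.sum_const_zero, mul_zero]
    have h5 : (fun g => if Reg ℓ g then f g else 0) =
        pj S (fun g => if Reg ℓ g then f g else 0) := by
      funext g
      by_cases hg : Reg ℓ g
      · rw [if_pos hg]
        conv_lhs => rw [← h1, h2, pj_add, Pi.add_apply]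
        rw [h4 g hg, add_zero]
      · rw [if_neg hg, h3 g hg]
    rw [h5]
    exact pj_mem S _
  refine ⟨hi, ?_⟩
  intro χ hχ ψ hψ hψe
  have h1 := hi χ (Submodule.subset_span hχ)
  rw [← hSc] at h1
  have h2 := span_orth hS hψ (fun h => hψe (by rw [← hSc]; exact h)) h1
  rw [← h2, finsum_eq_sum_of_fintype]
  refine Finset.sum_congr rfl fun s _ => ?_
  rw [← H94.irr_star hψ]
  by_cases hs : Reg ℓ s
  · simp [hs]
  · simp [hs]

end Pool.Agent.PP.K9.H25
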