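import Pool.Agent.Helper57_K9.Stmts3

/-!
# K9, row KL_GRB: integral vectors with Gram matrix `I + e J`
-/

open scoped BigOperators

noncomputable section

namespace Pool.Agent.PP.K9.H25

set_option linter.unusedSectionVars false

section vec

variable {ι : Type} [Fintype ι] [DecidableEq ι]

theorem sum_one (g : ι → ℤ) (hg : ∀ i, 0 ≤ g i) (p : ι) : g p ≤ ∑ i, g i :=
  Finset.single_le_sum (fun i _ => hg i) (Finset.mem_univ p)

theorem sum_two (g : ι → ℤ) (hg : ∀ i, 0 ≤ g i) {p q : ι} (h : p ≠ q) : g p + g q ≤ ∑ i, g i := by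
  have h1 : ∑ i ∈ ({p, q} : Finset ι), g i = g p + g q := Finset.sum_pair h
  rw [← h1]
  exact Finset.sum_le_sum_of_subset_of_nonneg (Finset.subset_univ _) fun i _ _ => hg i

theorem sum_three (g : ι → ℤ) (hg : ∀ i, 0 ≤ g i) {p q i : ι} (h : p ≠ q) (h1 : i ≠ p)
    (h2 : i ≠ q) : g i + (g p + g q) ≤ ∑ i, g i := by
  have h3 : ∑ x ∈ ({i, p, q} : Finset ι), g x = g i + (g p + g q) := by
    rw [Finset.sum_insert (by simp [h1, h2]), Finset.sum_pair h]
  rw [← h3]
  exact Finset.sum_le_sum_of_subset_of_nonneg (Finset.subset_univ _) fun i _ _ => hg i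

theorem sq_one_of {n : ℤ} (h : n ≠ 0) (h2 : n * n ≤ 2) : n * n = 1 := by
  have h3 : n ≤ 1 := by nlinarith
  have h4 : -1 ≤ n := by nlinarith
  have h5 : n = -1 ∨ n = 0 ∨ n = 1 := by omega
  rcases h5 with rfl | rfl | rfl
  · rfl
  · exact absurd rfl h
  · rfl

/-- an integral vector of norm one -/
theorem norm_one {f : ι → ℤ} (h : ∑ i, f i * f i = 1) :
    ∃ (r : ι) (σ : ℤ), σ * σ = 1 ∧ ∀ i, f i = if i = r then σ else 0 := by
  have hpos : ∀ i, 0 ≤ f i * f i := fun i => mul_self_nonneg _
  obtain ⟨r, hr⟩ : ∃ r, f r ≠ 0 := by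
    by_contra hcon
    push Not at hcon
    simp [hcon] at h
  have h1 : f r * f r = 1 := by
    apply sq_one_of hr
    have := sum_one (fun i => f i * f i) hpos r
    omega
  refine ⟨r, f r, h1, fun i => ?_⟩
  by_cases hi : i = r
  · rw [if_pos hi, hi]
  · rw [if_neg hi]
    have h2 := sum_two (fun i => f i * f i) hpos (Ne.symm hi)
    rw [h, h1] at h2
    have h3 : f i * f i = 0 := by
      have := hpos i
      omega
    exact mul_self_eq_zero.1 h3

/-- an integral vector of norm two -/
theorem norm_two {d : ι → ℤ} (h : ∑ i, d i * d i = 2) :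
    ∃ p q : ι, p ≠ q ∧ d p * d p = 1 ∧ d q * d q = 1 ∧ ∀ i, i ≠ p → i ≠ q → d i = 0 := by
  have hpos : ∀ i, 0 ≤ d i * d i := fun i => mul_self_nonneg _
  obtain ⟨p, hp⟩ : ∃ r, d r ≠ 0 := by
    by_contra hcon
    push Not at hcon
    simp [hcon] at h
  have h1 : ∀ r, d r ≠ 0 → d r * d r = 1 := fun r hr => by
    apply sq_one_of hr
    have := sum_one (fun i => d i * d i) hpos r
    omega
  obtain ⟨q, hqp, hq⟩ : ∃ q, q ≠ p ∧ d q ≠ 0 := by
    by_contra hcon
    push Not at hcon
    have h2 : ∑ i, d i * d i = d p * d p :=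
      Finset.sum_eq_single p (fun i _ hi => by rw [hcon i hi, mul_zero])
        (fun h => absurd (Finset.mem_univ p) h)
    rw [h, h1 p hp] at h2
    omega
  refine ⟨p, q, Ne.symm hqp, h1 p hp, h1 q hq, fun i hip hiq => ?_⟩
  have h2 := sum_three (fun i => d i * d i) hpos (Ne.symm hqp) hip hiq
  rw [h, h1 p hp, h1 q hq] at h2
  have h3 : d i * d i = 0 := by
    have := hpos i
    omega
  exact mul_self_eq_zero.1 h3

theorem inner_two {d : ι → ℤ} {p q : ι} (hpq : p ≠ q) (h : ∀ i, i ≠ p → i ≠ q → d i = 0)
    (v : ι → ℤ) : ∑ i, d i * v i = d p * v p + d q * v q :=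
  Finset.sum_eq_add p q hpq (fun i _ hi => by rw [h i hi.1 hi.2, zero_mul])
    (fun h => absurd (Finset.mem_univ p) h) (fun h => absurd (Finset.mem_univ q) h)

/-- the common vector: `D` is a family of vectors of norm two with inner products one, `c` an
integral vector with odd inner products with all of them -/
theorem common {J : Type} (D : J → ι → ℤ) (j₀ : J)
    (h2 : ∀ j, ∑ i, D j i * D j i = 2) (h1 : ∀ j k, j ≠ k → ∑ i, D j i * D k i = 1)
    (c : ι → ℤ) (hc : ∀ j, ∑ i, c i * D j i = -1) :
    ∃ (p : ι) (s : ℤ), s * s = 1 ∧ ∀ j, D j p = s := by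
  classical
  obtain ⟨p, q, hpq, hp, hq, h0⟩ := norm_two (h2 j₀)
  have hle : ∀ j i, D j i * D j i ≤ 2 := fun j i => by
    rw [← h2 j]
    exact sum_one (fun i => D j i * D j i) (fun i => mul_self_nonneg _) i
  -- the two types
  have htype : ∀ j, j ≠ j₀ → (D j p = D j₀ p ∧ D j q = 0) ∨ (D j q = D j₀ q ∧ D j p = 0) := by
    intro j hj
    have e1 := h1 j₀ j (Ne.symm hj)
    rw [inner_two hpq h0] at e1
    have b1 := hle j p
    have b2 := hle j q
    have hp' : D j₀ p = 1 ∨ D j₀ p = -1 := mul_self_eq_one_iff.1 hp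
    have hq' : D j₀ q = 1 ∨ D j₀ q = -1 := mul_self_eq_one_iff.1 hq
    have c1 : D j p ≤ 1 := by nlinarith
    have c2 : -1 ≤ D j p := by nlinarith
    have c3 : D j q ≤ 1 := by nlinarith
    have c4 : -1 ≤ D j q := by nlinarith
    rcases hp' with hp' | hp' <;> rcases hq' with hq' | hq' <;> rw [hp', hq'] at e1 <;>
      rw [hp', hq'] <;> omega
  by_cases hA : ∀ j, j ≠ j₀ → D j p = D j₀ p
  · refine ⟨p, D j₀ p, hp, fun j => ?_⟩
    by_cases hj : j = j₀
    · rw [hj]
    · exact hA j hj
  by_cases hB : ∀ j, j ≠ j₀ → D j q = D j₀ q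
  · refine ⟨q, D j₀ q, hq, fun j => ?_⟩
    by_cases hj : j = j₀
    · rw [hj]
    · exact hB j hj
  exfalso
  push Not at hA hB
  obtain ⟨k, hk, hkp⟩ := hA
  obtain ⟨j, hj, hjq⟩ := hB
  have tk := (htype k hk).resolve_left (fun h => hkp h.1)
  have tj := (htype j hj).resolve_right (fun h => hjq h.1)
  have hjk : j ≠ k := by
    rintro rfl
    exact hkp tj.1
  -- the rest of `D j`, `D k`
  have hrest : ∀ i, i ≠ p → i ≠ q → D j i = D k i := by
    intro i hip hiq
    have e1 : ∑ i, (D j i - D k i) * (D j i - D k i) = 2 := by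
      have e2 : ∀ i, (D j i - D k i) * (D j i - D k i) =
          D j i * D j i - 2 * (D j i * D k i) + D k i * D k i := fun i => by ring
      simp only [e2]
      rw [Finset.sum_add_distrib, Finset.sum_sub_distrib, ← Finset.mul_sum, h2, h2, h1 j k hjk]
      norm_num
    have e3 := sum_three (fun i => (D j i - D k i) * (D j i - D k i))
      (fun i => mul_self_nonneg _) hpq hip hiq
    rw [e1, tj.1, tj.2, tk.1, tk.2, sub_zero, hp] at e3
    have e4 : (0 - D j₀ q) * (0 - D j₀ q) = 1 := by
      rw [← hq]; ring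
    rw [e4] at e3
    have e5 : (D j i - D k i) * (D j i - D k i) = 0 := by
      have := mul_self_nonneg (D j i - D k i)
      omega
    exact sub_eq_zero.1 (mul_self_eq_zero.1 e5)
  have heven : ∀ i, (2 : ℤ) ∣ c i * (D j₀ i + D j i + D k i) := by
    intro i
    apply Dvd.dvd.mul_left
    by_cases hip : i = p
    · rw [hip, tj.1, tk.2]
      exact ⟨D j₀ p, by ring⟩
    by_cases hiq : i = q
    · rw [hiq, tj.2, tk.1]
      exact ⟨D j₀ q, by ring⟩
    · rw [h0 i hip hiq, hrest i hip hiq]
      exact ⟨D k i, by ring⟩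
  have hsum : ∑ i, c i * (D j₀ i + D j i + D k i) = -3 := by
    have e2 : ∀ i, c i * (D j₀ i + D j i + D k i) = c i * D j₀ i + c i * D j i + c i * D k i :=
      fun i => by ring
    simp only [e2]
    rw [Finset.sum_add_distrib, Finset.sum_add_distrib, hc, hc, hc]
    norm_num
  have h3 : (2 : ℤ) ∣ -3 := by
    rw [← hsum]
    exact Finset.dvd_sum fun i _ => heven i
  omega

end vec

theorem grb : GrbStmt := by
  intro m e hm ι _ _ b hb
  rcases Nat.lt_or_ge 1 m with hm1 | hm1
  · -- at least two vectors
    obtain ⟨z, hz⟩ : ∃ z : Fin m, z = ⟨0, hm⟩ := ⟨_, rfl⟩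
    obtain ⟨D, hD⟩ : ∃ D : {j : Fin m // j ≠ z} → ι → ℤ, D = fun j i => b j.1 i - b z i := ⟨_, rfl⟩
    have hDa : ∀ j i, D j i = b j i - b z i := fun j i => by rw [hD]
    have hne : (⟨1, hm1⟩ : Fin m) ≠ z := by
      rw [hz]
      intro h
      have := congrArg Fin.val h
      simp at this
    have h2 : ∀ j, ∑ i, D j i * D j i = 2 := by
      intro j
      have e1 : ∀ i, D j i * D j i =
          b j i * b j i - 2 * (b j i * b z i) + b z i * b z i := fun i => by rw [hDa]; ring
      simp only [e1]
      rw [Finset.sum_add_distrib, Finset.sum_sub_distrib, ← Finset.mul_sum, hb, hb, hb,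
        if_pos rfl, if_pos rfl, if_neg j.2]
      ring
    have h1 : ∀ j k, j ≠ k → ∑ i, D j i * D k i = 1 := by
      intro j k hjk
      have e1 : ∀ i, D j i * D k i =
          b j i * b k i - b j i * b z i - b z i * b k i + b z i * b z i := fun i => by
        rw [hDa, hDa]; ring
      simp only [e1]
      rw [Finset.sum_add_distrib, Finset.sum_sub_distrib, Finset.sum_sub_distrib, hb, hb, hb, hb,
        if_pos rfl, if_neg j.2, if_neg (Ne.symm k.2), if_neg (fun h => hjk (Subtype.ext h))]
      ring
    have hc : ∀ j, ∑ i, b z i * D j i = -1 := by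
      intro j
      have e1 : ∀ i, b z i * D j i = b z i * b j i - b z i * b z i := fun i => by
        rw [hDa]; ring
      simp only [e1]
      rw [Finset.sum_sub_distrib, hb, hb, if_pos rfl, if_neg (Ne.symm j.2)]
      ring
    obtain ⟨p, s, hs, hDp⟩ := common D ⟨⟨1, hm1⟩, hne⟩ h2 h1 (b z) hc
    have hsp : ∀ v : ι → ℤ, ∑ i, v i * (if i = p then s else 0) = v p * s := by
      intro v
      rw [Finset.sum_eq_single p]
      · rw [if_pos rfl]
      · intro i _ hi
        rw [if_neg hi, mul_zero]
      · intro h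
        exact absurd (Finset.mem_univ p) h
    have hf : ∀ j : {j : Fin m // j ≠ z},
        ∃ (r : ι) (σ : ℤ), σ * σ = 1 ∧ ∀ i, D j i - (if i = p then s else 0) =
          if i = r then σ else 0 := by
      intro j
      apply norm_one
      have e1 : ∀ i, (D j i - (if i = p then s else 0)) * (D j i - (if i = p then s else 0)) =
          D j i * D j i - 2 * (D j i * (if i = p then s else 0)) +
            (if i = p then s else 0) * (if i = p then s else 0) := fun i => by ring
      simp only [e1]
      rw [Finset.sum_add_distrib, Finset.sum_sub_distrib, ← Finset.mul_sum, h2, hsp, hsp, hDp,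
        if_pos rfl, hs]
      norm_num
    choose r σ hσ hr using hf
    have hrp : ∀ j, r j ≠ p := by
      intro j h
      have e1 := hr j p
      rw [if_pos rfl, hDp, sub_self, if_pos h.symm] at e1
      have e2 := hσ j
      rw [← e1] at e2
      omega
    have hDr : ∀ j i, D j i = (if i = p then s else 0) + if i = r j then σ j else 0 := by
      intro j i
      rw [← hr j i]
      ring
    have hrr : ∀ j k, j ≠ k → r j ≠ r k := by
      intro j k hjk h
      have e1 := h1 j k hjk
      have e2 : ∀ i, D j i * D k i = D j i * (if i = p then s else 0) +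
          D j i * (if i = r k then σ k else 0) := fun i => by rw [hDr k i]; ring
      simp only [e2] at e1
      rw [Finset.sum_add_distrib, hsp, hDp, hs] at e1
      have e3 : ∑ i, D j i * (if i = r k then σ k else 0) = D j (r k) * σ k := by
        rw [Finset.sum_eq_single (r k)]
        · rw [if_pos rfl]
        · intro i _ hi
          rw [if_neg hi, mul_zero]
        · intro h
          exact absurd (Finset.mem_univ _) h
      rw [e3, hDr j (r k), if_neg (hrp k), if_pos h.symm, zero_add] at e1
      have e4 : σ j * σ k = 0 := by omega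
      rcases mul_eq_zero.1 e4 with h5 | h5
      · have := hσ j
        rw [h5] at this
        omega
      · have := hσ k
        rw [h5] at this
        omega
    refine ⟨fun j => if h : j = z then p else r ⟨j, h⟩, fun j => if h : j = z then -s else σ ⟨j, h⟩,
      -s * b z p - 1, fun i => b z i + if i = p then s else 0, ?_, ?_, ?_, ?_, ?_⟩
    · intro j k hjk
      simp only at hjk
      by_cases hj : j = z
      · by_cases hk : k = z
        · rw [hj, hk]
        · rw [dif_pos hj, dif_neg hk] at hjk
          exact absurd hjk.symm (hrp _)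
      · by_cases hk : k = z
        · rw [dif_neg hj, dif_pos hk] at hjk
          exact absurd hjk (hrp _)
        · rw [dif_neg hj, dif_neg hk] at hjk
          by_contra hne
          exact hrr ⟨j, hj⟩ ⟨k, hk⟩ (fun h => hne (congrArg Subtype.val h)) hjk
    · intro j
      by_cases hj : j = z
      · simp only [dif_pos hj]
        rw [← hs]; ring
      · simp only [dif_neg hj]
        exact hσ _
    · intro j i
      by_cases hj : j = z
      · simp only [dif_pos hj]
        rw [hj]
        by_cases hi : i = p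
        · rw [if_pos hi, if_pos hi]; ring
        · rw [if_neg hi, if_neg hi]; ring
      · simp only [dif_neg hj]
        have e1 := hDr ⟨j, hj⟩ i
        rw [hDa] at e1
        linarith
    · intro j
      by_cases hj : j = z
      · simp only [dif_pos hj, if_true]
        linear_combination (-(b z p)) * hs
      · simp only [dif_neg hj]
        rw [if_neg (hrp _), add_zero]
        have e1 := hc ⟨j, hj⟩
        have e2 : ∀ i, b z i * D ⟨j, hj⟩ i = b z i * (if i = p then s else 0) +
            b z i * (if i = r ⟨j, hj⟩ then σ ⟨j, hj⟩ else 0) := fun i => by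
          rw [hDr ⟨j, hj⟩ i]; ring
        simp only [e2] at e1
        rw [Finset.sum_add_distrib, hsp] at e1
        have e3 : ∑ i, b z i * (if i = r ⟨j, hj⟩ then σ ⟨j, hj⟩ else 0) =
            b z (r ⟨j, hj⟩) * σ ⟨j, hj⟩ := by
          rw [Finset.sum_eq_single (r ⟨j, hj⟩)]
          · rw [if_pos rfl]
          · intro i _ hi
            rw [if_neg hi, mul_zero]
          · intro h
            exact absurd (Finset.mem_univ _) h
        rw [e3] at e1
        have e4 := hσ ⟨j, hj⟩
        linear_combination σ ⟨j, hj⟩ * e1 - b z (r ⟨j, hj⟩) * e4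
    · intro h
      have h3 : (m : ℤ) ∣ 1 := ⟨-(-s * b z p - 1), by linarith⟩
      have h4 : m ∣ 1 := by exact_mod_cast h3
      have h5 := Nat.le_of_dvd one_pos h4
      omega
  · -- one vector
    obtain rfl : m = 1 := by omega
    have h0 : ∑ i, b 0 i * b 0 i = 1 + e := by
      rw [hb 0 0, if_pos rfl]
    obtain ⟨r, hr⟩ : ∃ r, b 0 r ≠ 0 := by
      by_contra hcon
      push Not at hcon
      simp only [hcon, mul_zero, Finset.sum_const_zero] at h0
      omega
    obtain ⟨σ, hσ, hσr⟩ : ∃ σ : ℤ, σ * σ = 1 ∧ 0 < σ * b 0 r := by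
      rcases lt_or_gt_of_ne hr with h | h
      · exact ⟨-1, by norm_num, by linarith⟩
      · exact ⟨1, by norm_num, by linarith⟩
    refine ⟨fun _ => r, fun _ => σ, σ * b 0 r - 1, fun i => b 0 i - if i = r then σ else 0, ?_, ?_,
      ?_, ?_, ?_⟩
    · intro j k _
      exact Subsingleton.elim _ _
    · intro _
      exact hσ
    · intro j i
      rw [Subsingleton.elim j 0]
      ring
    · intro j
      simp only [if_true]
      linear_combination (-(b 0 r)) * hσ
    · push_cast
      intro h
      linarith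

end Pool.Agent.PP.K9.H25
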